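import Pool.Agent.Lib.MP_5bcad1_co.Exact

set_option autoImplicit false

namespace Pool.Agent.Results.MP_5bcad1_co.ExactValue

open Pool.Agent.Lib.MP_5bcad1_co

/-- For every `m` there is `c` such that every loopless multigraph with `m` edges has a cut with
at least `c` edges, and some simple graph with `m` edges has no cut with more than `c` edges. -/
theorem result (m : ℕ) : ∃ c : ℕ,
    (∀ (V E : Type) [Finite V] [Finite E] (ends : E → Sym2 V), (∀ e, ¬ (ends e).IsDiag) →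
      Nat.card E = m → ∃ S : Set V, c ≤ {e | ∃ u ∈ S, ∃ v ∉ S, ends e = s(u, v)}.ncard) ∧
    ∃ (n : ℕ) (G : SimpleGraph (Fin n)), G.edgeSet.ncard = m ∧ ∀ S : Set (Fin n),
      {e ∈ G.edgeSet | ∃ u ∈ S, ∃ v ∉ S, e = s(u, v)}.ncard ≤ c := by
  have hne : {k : ℕ | ∃ L : List ℕ, m ≤ (L.map fun n => n.choose 2).sum ∧
      k = (L.map fun n => n ^ 2 / 4).sum}.Nonempty :=
    ⟨_, List.replicate m 2, by simp, rfl⟩
  obtain ⟨L, hL, hc⟩ := Nat.sInf_mem hne
  refine ⟨sInf {k : ℕ | ∃ L : List ℕ, m ≤ (L.map fun n => n.choose 2).sum ∧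
      k = (L.map fun n => n ^ 2 / 4).sum}, ?_, ?_⟩
  · intro V E _ _ ends h hm
    obtain ⟨S, L', h1, h2⟩ := multi_lower ends h
    refine ⟨S, le_trans (Nat.sInf_le ?_) h2⟩
    exact ⟨L', hm ▸ h1, rfl⟩
  · rw [hc]
    exact simple_upper m L hL

end Pool.Agent.Results.MP_5bcad1_co.ExactValue
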